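import Pool.Agent.Work.MP_67388f_an.TS.HoroM

set_option autoImplicit false

namespace Pool.Agent.Results.MP_67388f_an.HoroSingular

open MeasureTheory Filter Topology Matrix
open Pool.Agent.Work.MP_67388f_an

section places

variable {ι : Type*} (n₀ : ℕ) (n q : ι → ℕ) [∀ v, Fact (q v).Prime]

/-- The group `SL(n₀, ℝ) × ∏ SL(n v, ℚ_[q v])`. -/
def SLPlaces : Type _ :=
  SpecialLinearGroup (Fin n₀) ℝ × ((v : ι) → SpecialLinearGroup (Fin (n v)) ℚ_[q v])

/-- the product group structure -/
noncomputable instance : Group (SLPlaces n₀ n q) := Prod.instGroup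

/-- the product topology -/
noncomputable instance : TopologicalSpace (SLPlaces n₀ n q) := instTopologicalSpaceProd

variable {n₀ n q}

/-- the real component -/
def realPart (x : SLPlaces n₀ n q) : SpecialLinearGroup (Fin n₀) ℝ := x.1

/-- the component at the finite place `v` -/
def finPart (v : ι) (x : SLPlaces n₀ n q) : SpecialLinearGroup (Fin (n v)) ℚ_[q v] := x.2 v

end places

/-- `μ` is invariant and ergodic under the group `A`. -/
def IsErg {G X : Type*} [Group G] [MeasurableSpace X] [MulAction G X] (A : Subgroup G)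
    (μ : Measure X) : Prop :=
  (∀ a ∈ A, μ.map (fun z => a • z) = μ) ∧
  ∀ s : Set X, MeasurableSet s → (∀ a ∈ A, (fun z => a • z) ⁻¹' s =ᵐ[μ] s) →
    μ s = 0 ∨ μ sᶜ = 0

/-- Some nontrivial unipotent one-parameter group `exp (x Y)`, `x ∈ K`, is contained in `S`,
normalized by `ρ a` for all `a ∈ A`, and expanded by `ρ a` for some `a ∈ A`. -/
def HasUnipotent {G : Type*} [Group G] {n : ℕ} {K : Type*} [NormedField K] [CharZero K]
    (A : Subgroup G) (ρ : G → SpecialLinearGroup (Fin n) K)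
    (S : SpecialLinearGroup (Fin n) K → Prop) : Prop :=
  ∃ Y : Matrix (Fin n) (Fin n) K, Y ≠ 0 ∧ IsNilpotent Y ∧
    (∀ a ∈ A, ∃ c : K, (ρ a).1 * Y = c • (Y * (ρ a).1)) ∧
    (∃ a ∈ A, ∃ c : K, 1 < ‖c‖ ∧ (ρ a).1 * Y = c • (Y * (ρ a).1)) ∧
    ∀ x : K, ∃ u : SpecialLinearGroup (Fin n) K, u.1 = IsNilpotent.exp (x • Y) ∧ S u

/-- Either the ratio of the diagonal entries `i`, `k` takes on `A` values `≠ 1` arbitrarily close
to `1`, or the elements of `A` whose entries `i`, `k` have equal norms have equal entries `i`, `k`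
and act ergodically. -/
def GoodRatio {G X : Type*} [Group G] [MeasurableSpace X] [MulAction G X] {n : ℕ} {K : Type*}
    [NormedField K] (A : Subgroup G) (μ : Measure X) (ρ : G → SpecialLinearGroup (Fin n) K)
    (i k : Fin n) : Prop :=
  (∀ ε : ℝ, 0 < ε → ∃ a ∈ A, ρ a i i ≠ ρ a k k ∧ ‖ρ a i i * (ρ a k k)⁻¹ - 1‖ < ε) ∨
  ((∀ a ∈ A, ‖ρ a i i‖ = ‖ρ a k k‖ → ρ a i i = ρ a k k) ∧
    ∀ s : Set X, MeasurableSet s →
      (∀ a ∈ A, ρ a i i = ρ a k k → (fun z => a • z) ⁻¹' s =ᵐ[μ] s) → μ s = 0 ∨ μ sᶜ = 0)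

section places

variable {ι : Type*} {n₀ : ℕ} {n q : ι → ℕ} [∀ v, Fact (q v).Prime]
  {L H : Type*} [Group L] [Group H]

/-- At every place the components of the elements of `A` are diagonal of class `𝒜`. -/
def IsClassA (κ : L →* SLPlaces n₀ n q) (A : Subgroup (L × H)) : Prop :=
  DiagClassA A (fun a => realPart (κ a.1)) ∧ ∀ v, DiagClassA A (fun a => finPart v (κ a.1))

/-- The translate of `μ` by `t ∈ L`. -/
noncomputable def translate (H : Type*) [Group H] {X : Type*} [MeasurableSpace X]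
    [MulAction (L × H) X] (t : L) (μ : Measure X) : Measure X :=
  μ.map (fun x => (t, (1 : H)) • x)

/-- At the real place or at some finite place there is a nontrivial one-parameter unipotent group
in `L` which preserves `μ` and is normalized by `A` and expanded by an element of `A`. -/
def UnipotentInvariant {X : Type*} [MeasurableSpace X] [MulAction (L × H) X]
    (κ : L →* SLPlaces n₀ n q) (A : Subgroup (L × H)) (μ : Measure X) : Prop :=
  HasUnipotent A (fun a => realPart (κ a.1)) (fun u => ∃ t : L, realPart (κ t) = u ∧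
    (∀ v, finPart v (κ t) = 1) ∧ translate H t μ = μ) ∨
  ∃ v, HasUnipotent A (fun a => finPart v (κ a.1)) (fun u => ∃ t : L, finPart v (κ t) = u ∧
    realPart (κ t) = 1 ∧ (∀ v', v' ≠ v → finPart v' (κ t) = 1) ∧ translate H t μ = μ)

end places

/-- Let `L` be a closed subgroup of `SL(n₀, ℝ) × ∏ SL(n v, ℚ_[q v])` (finitely many distinct
primes `q v`), `H` any topological group, `L × H` acting continuously on a locally compact second
countable Hausdorff space `X`, and `A` a subgroup of `L × H` whose elements are diagonal of class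
`𝒜` at every place. Let `μ`, `ν` be `A`-ergodic probability measures, `μ` not invariant under a
unipotent group. Let `g ∈ L` be such that `aᵐ g a⁻ᵐ` converges, for some `a ∈ A`, to an element `z`
commuting with `A` (for `z = 1`: `g` lies in a horospherical group), and suppose that the ratio of
the diagonal entries `i ≠ k` of `A` is good whenever the entry `i, k` of `g` at the same place is
not zero. Then the translate of `μ` by `g` is singular to `ν`, unless `g = z` and this translate is
equal to `ν`. -/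
theorem result {ι : Type*} [Fintype ι] {n₀ : ℕ} {n q : ι → ℕ} [∀ v, Fact (q v).Prime]
    (hq : Function.Injective q)
    {L H : Type*} [Group L] [TopologicalSpace L] [IsTopologicalGroup L]
    [Group H] [TopologicalSpace H] [IsTopologicalGroup H]
    (κ : L →* SLPlaces n₀ n q) (hκ : IsClosedEmbedding κ)
    {X : Type*} [TopologicalSpace X] [LocallyCompactSpace X] [T2Space X]
    [SecondCountableTopology X] [MeasurableSpace X] [BorelSpace X]
    [MulAction (L × H) X] [ContinuousSMul (L × H) X]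
    (A : Subgroup (L × H)) (hA : IsClassA κ A) (μ ν : Measure X) [IsProbabilityMeasure μ]
    [IsProbabilityMeasure ν] (hμ : IsErg A μ) (hν : IsErg A ν) (hU : ¬ UnipotentInvariant κ A μ)
    (g z : L) (hz : ∀ b ∈ A, b.1 * z = z * b.1)
    (hlim : ∃ a ∈ A, Tendsto (fun m : ℕ => a.1 ^ m * g * (a.1 ^ m)⁻¹) atTop (𝓝 z))
    (hR : ∀ i k, i ≠ k → realPart (κ g) i k ≠ 0 →
      GoodRatio A μ (fun a => realPart (κ a.1)) i k)
    (hP : ∀ v i k, i ≠ k → finPart v (κ g) i k ≠ 0 →
      GoodRatio A μ (fun a => finPart v (κ a.1)) i k) :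
    translate H g μ ⟂ₘ ν ∨ (g = z ∧ translate H g μ = ν) := by
  have hjp : ∀ (g : L × H) (u : L), g * (MonoidHom.inl L H) u * g⁻¹ =
      (MonoidHom.inl L H) ((MonoidHom.fst L H) g * u * ((MonoidHom.fst L H) g)⁻¹) := by
    intro g u
    apply Prod.ext
    · rfl
    · show g.2 * 1 * g.2⁻¹ = 1
      rw [mul_one, mul_inv_cancel]
  have hpj : ∀ u : L, (MonoidHom.fst L H) ((MonoidHom.inl L H) u) = u := fun u => rfl
  have hj : Continuous (MonoidHom.inl L H) := continuous_id.prodMk continuous_const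
  have hcls : ClsS (n₀ := n₀) (n := n) (q := q) κ (MonoidHom.fst L H) A :=
    { diag := fun a ha => ⟨hA.1.1 a ha, fun v => (hA.2 v).1 a ha⟩
      clsR := fun i k r s h a ha => hA.1.quad i k r s h a ha
      clsP := fun v i k r s h a ha => (hA.2 v).quad i k r s h a ha }
  have hUU : UnipInv (G := L × H) (n₀ := n₀) (n := n) (q := q) κ (MonoidHom.inl L H)
      (MonoidHom.fst L H) A μ → UnipotentInvariant κ A μ := by
    intro key
    rcases key with ⟨Y, h1, h2, h3, h4, h5⟩ | ⟨v, Y, h1, h2, h3, h4, h5⟩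
    · refine Or.inl ⟨Y, h1, h2, h3, h4, fun x => ?_⟩
      obtain ⟨t, ht1, ht2, ht3⟩ := h5 x
      exact ⟨_, ht1, t, rfl, fun v => congrFun ht2 v, ht3⟩
    · refine Or.inr ⟨v, Y, h1, h2, h3, h4, fun x => ?_⟩
      obtain ⟨t, ht1, ht2, ht3, ht4⟩ := h5 x
      exact ⟨_, ht1, t, rfl, ht2, ht3, ht4⟩
  obtain ⟨a, ha, hlim⟩ := hlim
  refine horo_sing (G := L × H) (n₀ := n₀) (n := n) (q := q) hq
    (MonoidHom.inl L H) (MonoidHom.fst L H) hκ hj hjp hpj hcls μ ν hμ.1 hμ.2
    hν.1 hν.2 (fun h => hU (hUU h)) g ?_ a ha z (fun b hb => hz b hb) hlim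
  rintro (⟨i, k⟩ | ⟨v, i, k⟩) hc
  · exact hR i k hc.1 hc.2
  · exact hP v i k hc.1 hc.2

end Pool.Agent.Results.MP_67388f_an.HoroSingular
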