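import Pool.Agent.Work.MP_67388f_an.HM.AM

set_option autoImplicit false

namespace Pool.Agent.Results.MP_67388f_an.MixingHomogeneous

open MeasureTheory Filter Topology Matrix
open Pool.Agent.Work.MP_67388f_an

section places

variable {ι : Type} (n₀ : ℕ) (n q : ι → ℕ) [∀ v, Fact (q v).Prime]

/-- The group `SL(n₀, ℝ) × ∏ SL(n v, ℚ_[q v])`. -/
def SLPlaces : Type :=
  SpecialLinearGroup (Fin n₀) ℝ × ((v : ι) → SpecialLinearGroup (Fin (n v)) ℚ_[q v])

/-- the product group structure -/
noncomputable instance : Group (SLPlaces n₀ n q) := Prod.instGroup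

/-- the product topology -/
noncomputable instance : TopologicalSpace (SLPlaces n₀ n q) := instTopologicalSpaceProd

variable {n₀ n q}

/-- the real component -/
def realPart (x : SLPlaces n₀ n q) : SpecialLinearGroup (Fin n₀) ℝ := x.1

/-- the component at the finite place `v` -/
def finPart (v : ι) (x : SLPlaces n₀ n q) : SpecialLinearGroup (Fin (n v)) ℚ_[q v] := x.2 v

end places

section places

variable {ι : Type} {n₀ : ℕ} {n q : ι → ℕ} [∀ v, Fact (q v).Prime] {G : Type} [Group G]

/-- At every place the components of the elements of `A` are diagonal of class `𝒜`. -/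
def IsClassA (κ : G →* SLPlaces n₀ n q) (A : Subgroup G) : Prop :=
  DiagClassA A (fun a => realPart (κ a)) ∧ ∀ v, DiagClassA A (fun a => finPart v (κ a))

/-- the element of `G` attached to the integer vector `m` -/
def el {r : ℕ} (a : Multiplicative (Fin r → ℤ) →* G) (m : Fin r → ℤ) : G :=
  a (Multiplicative.ofAdd m)

/-- `μ` is homogeneous: it is supported on a single orbit of its stabilizer in `G`. -/
def IsHomogeneous (G : Type) [Group G] {X : Type} [MeasurableSpace X] [MulAction G X]
    (μ : Measure X) : Prop :=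
  ∃ x : X, μ {y | ∃ g : G, μ.map (fun z => g • z) = μ ∧ y = g • x}ᶜ = 0

end places

section mixing

variable {G X : Type} [Group G] [TopologicalSpace X] [MeasurableSpace X] [MulAction G X] {r : ℕ}

/-- `f` mixes of order `d` with the exponent `ρ`: for sequences `s`, `t` of vectors of total
length at most `d`, the members of `s` at distances at least `g` from the members of `t`, the
products of the translates of `f` over `s` and over `t` are uncorrelated up to `C g ^ (-ρ)`.
For `d = 2` this means `|∫ f (a m x) f (a m' x) - (∫ f) ^ 2| ≤ C ‖m - m'‖ ^ (-ρ)`. -/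
def MixesWithRate (a : Multiplicative (Fin r → ℤ) →* G) (μ : Measure X) (d : ℕ) (ρ : ℝ)
    (f : X → ℝ) : Prop :=
  ∃ C : ℝ, ∀ (s t : List (Fin r → ℤ)) (g : ℝ), s.length + t.length ≤ d → 0 < g →
    (∀ m ∈ s, ∀ m' ∈ t, g ≤ ‖m - m'‖) →
    |∫ x, (s.map fun m => f (el a m • x)).prod * (t.map fun m => f (el a m • x)).prod ∂μ -
      (∫ x, (s.map fun m => f (el a m • x)).prod ∂μ) *
        ∫ x, (t.map fun m => f (el a m • x)).prod ∂μ| ≤ C * g ^ (-ρ)

/-- Polynomial mixing of order `d` with exponents larger than one, for a dense set of compactly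
supported continuous functions. -/
def PolynomiallyMixing (a : Multiplicative (Fin r → ℤ) →* G) (μ : Measure X) (d : ℕ) : Prop :=
  ∀ θ : C(X, ℝ), HasCompactSupport θ → ∀ ε : ℝ, 0 < ε →
    ∃ f : C(X, ℝ), HasCompactSupport f ∧ (∀ x, |θ x - f x| ≤ ε) ∧
      ∃ ρ : ℝ, 1 < ρ ∧ MixesWithRate a μ d ρ f

/-- Exponential mixing of order two: there is an algebra `T` of bounded continuous test functions
with a submultiplicative norm `nm`, invariant under translations, which increase the norm at most
exponentially, such that the correlations decay exponentially, and such that the compactly supported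
test functions are dense (for instance Lipschitz functions, if `a m` is Lipschitz with constant
`exp (L ‖m‖)`). -/
def ExponentiallyMixing (a : Multiplicative (Fin r → ℤ) →* G) (μ : Measure X) : Prop :=
  ∃ (T : Set C(X, ℝ)) (nm : C(X, ℝ) → ℝ) (K L c : ℝ), 0 < c ∧
    (∀ t : ℝ, ContinuousMap.const X t ∈ T ∧ nm (ContinuousMap.const X t) ≤ K * |t|) ∧
    (∀ f ∈ T, ∀ g ∈ T, f + g ∈ T ∧ nm (f + g) ≤ nm f + nm g ∧ f * g ∈ T ∧
      nm (f * g) ≤ nm f * nm g) ∧
    (∀ f ∈ T, (∀ x, |f x| ≤ nm f) ∧ ∀ m : Fin r → ℤ, ∃ g ∈ T, (∀ x, g x = f (el a m • x)) ∧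
      nm g ≤ Real.exp (L * ‖m‖) * nm f) ∧
    (∀ f ∈ T, ∀ g ∈ T, ∀ m : Fin r → ℤ,
      |∫ x, f x * g (el a m • x) ∂μ - (∫ x, f x ∂μ) * ∫ x, g x ∂μ| ≤
        nm f * nm g * Real.exp (-c * ‖m‖)) ∧
    ∀ θ : C(X, ℝ), HasCompactSupport θ → ∀ ε : ℝ, 0 < ε →
      ∃ f ∈ T, HasCompactSupport f ∧ ∀ x, |θ x - f x| ≤ ε

end mixing

/-- Let `G` be a closed subgroup of `SL(n₀, ℝ) × ∏ SL(n v, ℚ_[q v])` (finitely many distinct
primes `q v`) acting continuously with open orbit maps on a locally compact second countable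
Hausdorff space `X` (for instance `X = G ⧸ Γ` with `Γ` a closed subgroup), let `a` be a homomorphism
of `ℤ ^ r` to `G` with diagonal image of class `𝒜`, and let `μ` be a probability measure invariant
under the image. If `μ` is polynomially mixing with exponents larger than one, of order two and
`r ≥ 3`, or of order four and `r ≥ 2`, or if `r ≥ 2` and `μ` is exponentially mixing of order two,
then `μ` is homogeneous: it is supported on a single orbit of its stabilizer in `G`. -/
theorem result {ι : Type} [Fintype ι] {n₀ : ℕ} {n q : ι → ℕ} [∀ v, Fact (q v).Prime]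
    (hq : Function.Injective q)
    {G : Type} [Group G] [TopologicalSpace G] [IsTopologicalGroup G]
    (κ : G →* SLPlaces n₀ n q) (hκ : IsClosedEmbedding κ)
    {X : Type} [TopologicalSpace X] [LocallyCompactSpace X] [T2Space X]
    [SecondCountableTopology X] [MeasurableSpace X] [BorelSpace X]
    [MulAction G X] [ContinuousSMul G X] (hX : ∀ x : X, IsOpenMap fun g : G => g • x)
    {r : ℕ} (a : Multiplicative (Fin r → ℤ) →* G) (ha : IsClassA κ a.range)
    (μ : Measure X) [IsProbabilityMeasure μ]
    (hμ : ∀ b ∈ a.range, μ.map (fun z => b • z) = μ)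
    (hmix : (3 ≤ r ∧ PolynomiallyMixing a μ 2) ∨ (2 ≤ r ∧ PolynomiallyMixing a μ 4) ∨
      (2 ≤ r ∧ ExponentiallyMixing a μ)) :
    IsHomogeneous G μ := by
  have hadd : ∀ m m' : Fin r → ℤ, el a (m + m') = el a m * el a m' := by
    intro m m'
    show a (Multiplicative.ofAdd (m + m')) = _
    rw [ofAdd_add, map_mul]
    rfl
  have hA : ∀ g, g ∈ a.range ↔ ∃ m, el a m = g := by
    intro g
    constructor
    · rintro ⟨m, rfl⟩
      exact ⟨Multiplicative.toAdd m, rfl⟩
    · rintro ⟨m, rfl⟩
      exact ⟨Multiplicative.ofAdd m, rfl⟩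
  have hcls : ClsS (n₀ := n₀) (n := n) (q := q) κ (MonoidHom.id G) a.range :=
    { diag := fun b hb => ⟨ha.1.1 b hb, fun v => (ha.2 v).1 b hb⟩
      clsR := fun i k r s h b hb => ha.1.quad i k r s h b hb
      clsP := fun v i k r s h b hb => (ha.2 v).quad i k r s h b hb }
  exact HM.homog_of_mix (n₀ := n₀) (n := n) (q := q) hq κ hκ hX (el a) hadd
    a.range hA hcls μ hμ hmix

end Pool.Agent.Results.MP_67388f_an.MixingHomogeneous
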