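import Pool.Agent.Work.MP_67388f_an.OG.Hmg
import Pool.Agent.Work.MP_67388f_an.OG.EMain

/-!
# Measure rigidity from the averages along one wall (the wall of the `b`-adic place)

Part 1 (circle, no hypothesis besides invariance under multiplication by `b`): the entropy of the
scale `j` is bounded in terms of the measure of the set of points for which a mean of
`e (N s x)` over integers `s ≡ 1` modulo `b ^ l`, `|s| ≤ b ^ ((1 - ε) j)`, is not close to a nonzero
number `c`. Part 2 (torus of dimension `d`, several or one generator prime to `det B`): if the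
averages converge at a summable rate (or one generator mixes at a rate `exp (-c n ^ γ)` with
`γ > 1 / 2`) the measure is the Haar measure of a coset of a closed connected subgroup.
No assumption on the entropy.
-/

set_option autoImplicit false

namespace Pool.Agent.Results.MP_67388f_an.OneGenerator

open MeasureTheory Filter Topology
open scoped NNReal

/-- the arc `[i / b^j, (i+1) / b^j)` of the circle -/
def arc (b j i : ℕ) : Set UnitAddCircle :=
  (fun t : ℝ => (t : UnitAddCircle)) '' Set.Ico ((i : ℝ) / b ^ j) ((i + 1 : ℝ) / b ^ j)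

/-- the entropy of `μ` on the `b ^ j` arcs of length `b ^ (-j)` -/
noncomputable def arcEnt (b j : ℕ) (μ : Measure UnitAddCircle) : ℝ :=
  ∑ i ∈ Finset.range (b ^ j), Real.negMulLog (μ.real (arc b j i))

/-- the average of `e (N s x)` over the finite set `F` of integers `s` -/
noncomputable def cavg (F : Finset ℤ) (N : ℤ) (x : UnitAddCircle) : ℂ :=
  (F.card : ℂ)⁻¹ * ∑ s ∈ F, fourier N (s • x)

/-- the torus `(ℝ/ℤ)^d` -/
abbrev Tor (d : ℕ) : Type := UnitAddTorus (Fin d)

/-- integer square matrices -/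
abbrev Mat (d : ℕ) : Type := Matrix (Fin d) (Fin d) ℤ

/-- the endomorphism of the torus with integer matrix `A` -/
def act {d : ℕ} (A : Mat d) (x : Tor d) : Tor d := fun i => ∑ j, A i j • x j

/-- the matrix attached to the exponent vector `m` -/
def el {s d : ℕ} (A : Multiplicative (Fin s → ℕ) →* Mat d) (m : Fin s → ℕ) : Mat d :=
  A (Multiplicative.ofAdd m)

/-- the matrix `B` is expanding: `det B ≠ 0` and the powers of the inverse tend to `0` -/
def IsExpanding {d : ℕ} (B : Mat d) : Prop :=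
  B.det ≠ 0 ∧ Tendsto (fun k : ℕ => (B.map (fun z : ℤ => (z : ℝ)))⁻¹ ^ k) atTop (𝓝 0)

/-- the average of the character `N` over the orbit points `A (M m) x`, `m ∈ F` -/
noncomputable def favg {s d : ℕ} (A : Multiplicative (Fin s → ℕ) →* Mat d) (M : ℕ)
    (F : Finset (Fin s → ℕ)) (N : Fin d → ℤ) (x : Tor d) : ℂ :=
  (F.card : ℂ)⁻¹ * ∑ m ∈ F, UnitAddTorus.mFourier N (act (el A (M • m)) x)

/-- wall convergence: for every character `N`, every multiplier `M` and every `ε` there are finite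
nonempty samples `F n` of exponent vectors in `[0, n]^s` for which the probabilities of a deviation
`> ε` of the average from the integral are summable in `n` -/
def WallConv {s d : ℕ} (A : Multiplicative (Fin s → ℕ) →* Mat d) (μ : Measure (Tor d)) : Prop :=
  ∀ (N : Fin d → ℤ) (M : ℕ) (ε : ℝ), 0 < M → 0 < ε →
    ∃ F : ℕ → Finset (Fin s → ℕ),
      (∀ n, (F n).Nonempty ∧ F n ⊆ Fintype.piFinset fun _ => Finset.range (n + 1)) ∧
      Summable fun n : ℕ =>
        μ.real {x | ε < ‖favg A M (F n) N x - ∫ z, UnitAddTorus.mFourier N z ∂μ‖}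

/-- the correlation of the character `N` for the difference vector `k` -/
noncomputable def corr {s d : ℕ} (A : Multiplicative (Fin s → ℕ) →* Mat d)
    (μ : Measure (Tor d)) (N : Fin d → ℤ) (k : Fin s → ℤ) : ℂ :=
  (∫ x, UnitAddTorus.mFourier N (act (el A fun i => (k i).toNat) x) *
    (starRingEnd ℂ) (UnitAddTorus.mFourier N (act (el A fun i => (-k i).toNat) x)) ∂μ) -
    (∫ x, UnitAddTorus.mFourier N x ∂μ) * (starRingEnd ℂ) (∫ x, UnitAddTorus.mFourier N x ∂μ)

/-- `T` is mixing at the rate `exp (-c n ^ γ)` on Lipschitz functions -/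
def MixRate {X : Type} [PseudoEMetricSpace X] [MeasurableSpace X] (T : X → X) (μ : Measure X)
    (γ : ℝ) : Prop :=
  ∃ C c : ℝ, 0 < c ∧ ∀ (K K' : ℝ≥0) (f g : X → ℝ), LipschitzWith K f → LipschitzWith K' g →
    (∀ x, |f x| ≤ K) → (∀ x, |g x| ≤ K') → ∀ n : ℕ,
      |∫ x, f x * g (T^[n] x) ∂μ - (∫ x, f x ∂μ) * ∫ x, g x ∂μ| ≤
        C * K * K' * Real.exp (-c * (n : ℝ) ^ γ)

theorem result :
    (∀ b : ℕ, 2 ≤ b → ∀ N : ℤ, N ≠ 0 → ∀ c₀ ε : ℝ, 0 < c₀ → 0 < ε →
      ∃ (l j₀ : ℕ) (δ : ℝ), 1 ≤ l ∧ 0 < δ ∧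
        ∀ (μ : Measure UnitAddCircle) [IsProbabilityMeasure μ], μ.map (fun x => b • x) = μ →
        ∀ j : ℕ, j₀ ≤ j → ∀ F : Finset ℤ, F.Nonempty →
        (∀ s ∈ F, s ≡ 1 [ZMOD (b : ℤ) ^ l] ∧ |(s : ℝ)| ≤ (b : ℝ) ^ ((1 - ε) * (j : ℝ))) →
        ∀ c : ℂ, c₀ ≤ ‖c‖ →
          arcEnt b (j + 1) μ - arcEnt b j μ ≤
            Real.binEntropy (μ.real {x | δ < ‖cavg F N x - c‖}) +
              μ.real {x | δ < ‖cavg F N x - c‖} * Real.log b) ∧
    (∀ (s d : ℕ) (A : Multiplicative (Fin s → ℕ) →* Mat d) (B : Mat d),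
      (∀ m, Commute (el A m) B) → (∀ m, IsCoprime (el A m).det B.det) → IsExpanding B →
      ∀ (μ : Measure (Tor d)) [IsProbabilityMeasure μ],
      (∀ m, μ.map (act (el A m)) = μ) → μ.map (act B) = μ →
      (WallConv A μ ∨
        (2 ≤ s ∧ ∀ N : Fin d → ℤ, Summable fun k : Fin s → ℤ => ‖corr A μ N k‖) ∨
        ∃ (m : Fin s → ℕ) (γ : ℝ), 1 / 2 < γ ∧ MixRate (act (el A m)) μ γ) →
      ∃ H : AddSubgroup (Tor d), IsClosed (H : Set (Tor d)) ∧ IsConnected (H : Set (Tor d)) ∧
        (∀ m, ∀ x ∈ H, act (el A m) x ∈ H) ∧ (∀ x ∈ H, act B x ∈ H) ∧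
        (∀ x ∈ H, μ.map (fun y => y + x) = μ) ∧ ∃ x : Tor d, μ {y | y - x ∈ H} = 1) := by
  refine ⟨fun b hb N hN c₀ ε hc₀ hε => ?_, fun s d A B hcomm hcop hB μ _ hA hB' h => ?_⟩
  · exact Pool.Agent.Work.MP_67388f_an.OG.rate_entropy b hb N hN c₀ ε hc₀ hε
  · exact Pool.Agent.Work.MP_67388f_an.OG.homogeneous A B hcomm hcop hB μ hA hB' h

end Pool.Agent.Results.MP_67388f_an.OneGenerator
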