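import Pool.Agent.Work.MP_67388f_an.HM.Spec
import Pool.Agent.Work.MP_67388f_an.W3.Elt

set_option autoImplicit false

namespace Pool.Agent.Results.MP_67388f_an.SpectralHomogeneous

open MeasureTheory Filter Topology Matrix
open Pool.Agent.Work.MP_67388f_an

section places

variable {ι : Type} (n₀ : ℕ) (n q : ι → ℕ) [∀ v, Fact (q v).Prime]

/-- The group `SL(n₀, ℝ) × ∏ SL(n v, ℚ_[q v])`. -/
def SLPlaces : Type :=
  SpecialLinearGroup (Fin n₀) ℝ × ((v : ι) → SpecialLinearGroup (Fin (n v)) ℚ_[q v])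

/-- the product group structure -/
noncomputable instance : Group (SLPlaces n₀ n q) := Prod.instGroup

/-- the product topology -/
noncomputable instance : TopologicalSpace (SLPlaces n₀ n q) := instTopologicalSpaceProd

variable {n₀ n q}

/-- the real component -/
def realPart (x : SLPlaces n₀ n q) : SpecialLinearGroup (Fin n₀) ℝ := x.1

/-- the component at the finite place `v` -/
def finPart (v : ι) (x : SLPlaces n₀ n q) : SpecialLinearGroup (Fin (n v)) ℚ_[q v] := x.2 v

end places

section places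

variable {ι : Type} {n₀ : ℕ} {n q : ι → ℕ} [∀ v, Fact (q v).Prime] {G : Type} [Group G]

/-- At every place the components of the elements of `A` are diagonal of class `𝒜`. -/
def IsClassA (κ : G →* SLPlaces n₀ n q) (A : Subgroup G) : Prop :=
  DiagClassA A (fun a => realPart (κ a)) ∧ ∀ v, DiagClassA A (fun a => finPart v (κ a))

/-- the element of `G` attached to the integer vector `m` -/
def el {r : ℕ} (a : Multiplicative (Fin r → ℤ) →* G) (m : Fin r → ℤ) : G :=
  a (Multiplicative.ofAdd m)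

/-- `w` is the logarithm of the norm of the ratio of two diagonal entries, at some place. -/
def IsRootWeight {r : ℕ} (κ : G →* SLPlaces n₀ n q) (a : Multiplicative (Fin r → ℤ) →* G)
    (w : (Fin r → ℤ) →+ ℝ) : Prop :=
  (∃ i j, ∀ m, w m = Real.log ‖realPart (κ (el a m)) i i‖ -
    Real.log ‖realPart (κ (el a m)) j j‖) ∨
  ∃ v i j, ∀ m, w m = Real.log ‖finPart v (κ (el a m)) i i‖ -
    Real.log ‖finPart v (κ (el a m)) j j‖

/-- `μ` is homogeneous: it is supported on a single orbit of its stabilizer in `G`. -/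
def IsHomogeneous (G : Type) [Group G] {X : Type} [MeasurableSpace X] [MulAction G X]
    (μ : Measure X) : Prop :=
  ∃ x : X, μ {y | ∃ g : G, μ.map (fun z => g • z) = μ ∧ y = g • x}ᶜ = 0

end places

section spectrum

variable {G X : Type} [Group G] [TopologicalSpace X] [MeasurableSpace X] [MulAction G X] {r : ℕ}

/-- The property `P` holds for a dense set of compactly supported continuous functions. -/
def Densely (P : C(X, ℝ) → Prop) : Prop :=
  ∀ θ : C(X, ℝ), HasCompactSupport θ → ∀ ε : ℝ, 0 < ε →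
    ∃ f : C(X, ℝ), HasCompactSupport f ∧ (∀ x, |θ x - f x| ≤ ε) ∧ P f

/-- the correlation `∫ f(x) f(a m x) dμ - (∫ f dμ) ^ 2` -/
noncomputable def correlation (a : Multiplicative (Fin r → ℤ) →* G) (μ : Measure X)
    (f : C(X, ℝ)) (m : Fin r → ℤ) : ℝ :=
  ∫ x, f x * f (el a m • x) ∂μ - (∫ x, f x ∂μ) ^ 2

/-- the wave `cos (2 π ⟨m, θ⟩)` -/
noncomputable def wave (m : Fin r → ℤ) (θ : Fin r → ℝ) : ℝ :=
  Real.cos (2 * Real.pi * ∑ i, (m i : ℝ) * θ i)

/-- Lebesgue measure on the unit cube -/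
noncomputable def cube (r : ℕ) : Measure (Fin r → ℝ) :=
  Measure.pi fun _ => volume.restrict (Set.Ioc (0 : ℝ) 1)

/-- The spectral measure `σ` of `f - ∫ f` gives measure at most `C δ ^ s`, `s > 2`, to the balls
of radius `δ` of the torus `ℝ ^ r / ℤ ^ r`. -/
def SpectralBalls (a : Multiplicative (Fin r → ℤ) →* G) (μ : Measure X) (f : C(X, ℝ)) : Prop :=
  ∃ σ : Measure (Fin r → ℝ), IsFiniteMeasure σ ∧
    (∀ m, correlation a μ f m = ∫ θ, wave m θ ∂σ) ∧
    ∃ C s : ℝ, 2 < s ∧ ∀ (x : Fin r → ℝ) (δ : ℝ), 0 < δ →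
      σ.real {θ | ∃ k : Fin r → ℤ, ∀ i, |θ i - x i - k i| ≤ δ} ≤ C * δ ^ s

/-- The spectral measure of `f - ∫ f` has a density in `L ^ q`, `q > (r - 1) / (r - 2)`. -/
def SpectralDensity (a : Multiplicative (Fin r → ℤ) →* G) (μ : Measure X) (f : C(X, ℝ)) : Prop :=
  ∃ (q : ℝ) (h : (Fin r → ℝ) → ℝ), ((r : ℝ) - 1) / ((r : ℝ) - 2) < q ∧
    MemLp h (ENNReal.ofReal q) (cube r) ∧
    ∀ m, correlation a μ f m = ∫ θ, h θ * wave m θ ∂cube r

/-- The `p`-th powers of the correlations are summable over the neighbourhoods `|w m| < η` of the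
wall `w = 0`, for some `1 ≤ p < r - 1`. -/
def WallSummable (a : Multiplicative (Fin r → ℤ) →* G) (μ : Measure X)
    (w : (Fin r → ℤ) →+ ℝ) (f : C(X, ℝ)) : Prop :=
  ∀ η : ℝ, 0 < η → ∃ p : ℝ, 1 ≤ p ∧ p < (r : ℝ) - 1 ∧
    Summable fun m : {m : Fin r → ℤ // |w m| < η} => |correlation a μ f m.1| ^ p

/-- Complete convergence along the wall `w = 0`: for all `N`, `η` there are finite samples `F R` of
vectors `m` with `|m i| ≤ R`, `N ∣ m i`, `|w m| < η` such that, for a dense set of `f`, the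
measures of the sets where the average of `f` over the sample `F R` differs from `∫ f` by more than
`δ` are summable over `R`, for all `δ > 0`. -/
def WallConvergence (a : Multiplicative (Fin r → ℤ) →* G) (μ : Measure X)
    (w : (Fin r → ℤ) →+ ℝ) : Prop :=
  ∀ (N : ℕ) (η : ℝ), 0 < N → 0 < η → ∃ F : ℕ → List (Fin r → ℤ),
    (∀ R, F R ≠ [] ∧ ∀ m ∈ F R, (∀ i, |m i| ≤ (R : ℤ)) ∧ (∀ i, (N : ℤ) ∣ m i) ∧ |w m| < η) ∧
    Densely fun f : C(X, ℝ) => ∀ δ : ℝ, 0 < δ → Summable fun R : ℕ =>
      μ.real {x | δ < |((F R).map fun m => f (el a m • x)).sum / ((F R).length : ℝ) -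
        ∫ y, f y ∂μ|}

/-- The single element `el a b` is exponentially mixing of order two for `μ`: there is an algebra
`T` of bounded continuous test functions with a submultiplicative norm `nm`, invariant under the
powers of the element, the `k`-th power increasing the norm at most by the factor `exp (L |k|)`, such
that the correlations decay exponentially, and such that the compactly supported test functions are
dense (for instance Lipschitz functions, if the element and its inverse are Lipschitz). -/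
def ElementMixing (a : Multiplicative (Fin r → ℤ) →* G) (μ : Measure X) (b : Fin r → ℤ) : Prop :=
  ∃ (T : Set C(X, ℝ)) (nm : C(X, ℝ) → ℝ) (K L c : ℝ), 0 < c ∧
    (∀ t : ℝ, ContinuousMap.const X t ∈ T ∧ nm (ContinuousMap.const X t) ≤ K * |t|) ∧
    (∀ f ∈ T, ∀ g ∈ T, f + g ∈ T ∧ nm (f + g) ≤ nm f + nm g ∧ f * g ∈ T ∧
      nm (f * g) ≤ nm f * nm g) ∧
    (∀ f ∈ T, (∀ x, |f x| ≤ nm f) ∧ ∀ k : ℤ, ∃ g ∈ T, (∀ x, g x = f (el a (k • b) • x)) ∧
      nm g ≤ Real.exp (L * |(k : ℝ)|) * nm f) ∧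
    (∀ f ∈ T, ∀ g ∈ T, ∀ k : ℕ,
      |∫ x, f x * g (el a ((k : ℤ) • b) • x) ∂μ - (∫ x, f x ∂μ) * ∫ x, g x ∂μ| ≤
        nm f * nm g * Real.exp (-c * k)) ∧
    ∀ θ : C(X, ℝ), HasCompactSupport θ → ∀ ε : ℝ, 0 < ε →
      ∃ f ∈ T, HasCompactSupport f ∧ ∀ x, |θ x - f x| ≤ ε

end spectrum

/-- Let `G` be a closed subgroup of `SL(n₀, ℝ) × ∏ SL(n v, ℚ_[q v])` (finitely many distinct
primes `q v`) acting continuously with open orbit maps on a locally compact second countable
Hausdorff space `X` (for instance `X = G ⧸ Γ` with `Γ` a closed subgroup), let `a` be a homomorphism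
of `ℤ ^ r` to `G` with diagonal image of class `𝒜`, and let `μ` be a probability measure invariant
under the image. Suppose that `r ≥ 3` and, for a dense set of compactly supported continuous
functions `f`, the spectral measure of `f - ∫ f` gives measure at most `C δ ^ s`, `s > 2`, to balls
of radius `δ`; or that `r ≥ 3` and, for a dense set of `f`, it has a density in `L ^ q`,
`q > (r - 1) / (r - 2)`; or that `μ` is ergodic and, for every nonzero root weight `w`, either the
`p`-th powers of the correlations of `f` are summable along the wall `w = 0`, `1 ≤ p < r - 1`, for a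
dense set of `f`, or there is complete convergence along the wall, or ONE element `el a b`, `w b = 0`,
is exponentially mixing of order two.
Then `μ` is homogeneous: it is supported on a single orbit of its stabilizer in `G`. -/
theorem result {ι : Type} [Fintype ι] {n₀ : ℕ} {n q : ι → ℕ} [∀ v, Fact (q v).Prime]
    (hq : Function.Injective q)
    {G : Type} [Group G] [TopologicalSpace G] [IsTopologicalGroup G]
    (κ : G →* SLPlaces n₀ n q) (hκ : IsClosedEmbedding κ)
    {X : Type} [TopologicalSpace X] [LocallyCompactSpace X] [T2Space X]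
    [SecondCountableTopology X] [MeasurableSpace X] [BorelSpace X]
    [MulAction G X] [ContinuousSMul G X] (hX : ∀ x : X, IsOpenMap fun g : G => g • x)
    {r : ℕ} (a : Multiplicative (Fin r → ℤ) →* G) (ha : IsClassA κ a.range)
    (μ : Measure X) [IsProbabilityMeasure μ]
    (hμ : ∀ b ∈ a.range, μ.map (fun z => b • z) = μ)
    (hspec : (3 ≤ r ∧ Densely (SpectralBalls a μ)) ∨ (3 ≤ r ∧ Densely (SpectralDensity a μ)) ∨
      ((∀ s : Set X, MeasurableSet s → (∀ b ∈ a.range, (fun z => b • z) ⁻¹' s =ᵐ[μ] s) →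
          μ s = 0 ∨ μ sᶜ = 0) ∧
        ∀ w : (Fin r → ℤ) →+ ℝ, w ≠ 0 → IsRootWeight κ a w →
          Densely (WallSummable a μ w) ∨ WallConvergence a μ w ∨
            ∃ b : Fin r → ℤ, w b = 0 ∧ ElementMixing a μ b)) :
    IsHomogeneous G μ := by
  have hadd : ∀ m m' : Fin r → ℤ, el a (m + m') = el a m * el a m' := by
    intro m m'
    show a (Multiplicative.ofAdd (m + m')) = _
    rw [ofAdd_add, map_mul]
    rfl
  have hA : ∀ g, g ∈ a.range ↔ ∃ m, el a m = g := by
    intro g
    constructor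
    · rintro ⟨m, rfl⟩
      exact ⟨Multiplicative.toAdd m, rfl⟩
    · rintro ⟨m, rfl⟩
      exact ⟨Multiplicative.ofAdd m, rfl⟩
  have hcls : ClsS (n₀ := n₀) (n := n) (q := q) κ (MonoidHom.id G) a.range :=
    { diag := fun b hb => ⟨ha.1.1 b hb, fun v => (ha.2 v).1 b hb⟩
      clsR := fun i k r s h b hb => ha.1.quad i k r s h b hb
      clsP := fun v i k r s h b hb => (ha.2 v).quad i k r s h b hb }
  refine HM.homog_of_spec (n₀ := n₀) (n := n) (q := q) hq κ hκ hX (el a) hadd
    a.range hA hcls μ hμ ?_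
  rcases hspec with ⟨hr, h⟩ | ⟨hr, h⟩ | ⟨herg, h⟩
  · exact Or.inl ⟨by omega, fun θ hθ ε hε => h θ hθ ε hε⟩
  · refine Or.inr (Or.inl ⟨by omega, fun θ hθ ε hε => ?_⟩)
    obtain ⟨f, h1, h2, q', g, hq1, hg, hc⟩ := h θ hθ ε hε
    refine ⟨f, h1, h2, ?_⟩
    have hr3 : (3 : ℝ) ≤ r := by exact_mod_cast hr
    have hr2 : (0 : ℝ) < (r : ℝ) - 2 := by linarith
    have h4 : (r : ℝ) - 1 < q' * ((r : ℝ) - 2) := by rwa [div_lt_iff₀ hr2] at hq1
    have h5 : 1 < q' := by
      by_contra hcon
      push Not at hcon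
      nlinarith
    refine ⟨q', g, h5, ?_, hg, fun m => hc m⟩
    have h6 : 0 < q' := by linarith
    have h7 : ((r : ℝ) - 1) * (1 - 1 / q') = (((r : ℝ) - 1) * (q' - 1)) / q' := by
      field_simp
    rw [h7, lt_div_iff₀ h6]
    nlinarith
  · refine Or.inr (Or.inr ⟨herg, fun w hw hc => ?_⟩)
    have hroot : IsRootWeight (n₀ := n₀) (n := n) (q := q) κ a w := by
      obtain ⟨c, hc⟩ := hc
      rcases c with c | c
      · exact Or.inl ⟨c.1, c.2, hc⟩
      · exact Or.inr ⟨c.1, c.2.1, c.2.2, hc⟩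
    rcases h w hw hroot with h' | h' | ⟨b, hb, T, nm, K, L, c, h1, h2, h3, h4, h5, h6⟩
    · left
      refine ⟨?_, fun θ hθ ε hε => h' θ hθ ε hε⟩
      obtain ⟨f, _, _, hf⟩ := h' 0 (by
        rw [ContinuousMap.coe_zero]
        exact HasCompactSupport.zero) 1 one_pos
      obtain ⟨p, hp1, hp2, _⟩ := hf 1 one_pos
      have h3 : (0 : ℝ) < r := by linarith
      exact_mod_cast h3
    · right
      intro N η hN hη
      obtain ⟨F, hF, hFc⟩ := h' N η hN hη
      exact ⟨F, fun R => ⟨(hF R).1, fun m hm => PoolMX.mem_strip.2 ((hF R).2 m hm)⟩,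
        fun θ hθ ε hε => hFc θ hθ ε hε⟩
    · right
      have hμm : ∀ m : Fin r → ℤ, μ.map (fun x => el a m • x) = μ := fun m => hμ _ ⟨_, rfl⟩
      exact PoolMX.sampled_of_elt (el a) hadd μ hμm w b hb
        (PoolMX.expMix_of_elt (el a) hadd μ hμm b T nm K L c h1 h2 h3 h4 h5 h6)

end Pool.Agent.Results.MP_67388f_an.SpectralHomogeneous
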